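import Pool.Agent.MWC.StmtsB
import Pool.Agent.Helper65_MWC.Checks

/-!
# Row CBA of block MWC (MP_23468a_al): the three identities above the base (a')
-/

set_option autoImplicit false

namespace Pool.Agent.MWC.H81

open Pool.Agent.Helper14_MV Pool.Agent.Helper2_MV Pool.Agent.MVO Pool.Agent.MWL Pool.Agent.MWA
open Pool.Agent.MWC

theorem tab_ofA {n : ℕ} {β : FIC} {r : Bool} {k j : ℕ} {x : List ℕ} {κ : Bit}
    (ht : tab r k x j = [κ]) (h : HB r n β κ) : ∀ μ ∈ tab r k x j, HB r n β μ := by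
  intro μ hμ
  rw [ht, List.mem_singleton] at hμ
  rw [hμ]
  exact h

/-- `x²y² ≈ y²x²` is the exchange of `[2; 2]` -/
theorem bx_of_r0 {β : FIC} (h : R0 β) : BX β 0 [2] [2] := by
  intro e
  show RR β (bl 2 2 (e 0)) (bl 2 2 (flp e 0 0))
  have h1 : flp e 0 0 = !(e 0) := if_pos rfl
  rw [h1]
  cases e 0 with
  | false => exact h
  | true => exact RR.symm h

/-- **CBA** -/
theorem cba (arb : ArbStmt) (tyc : TycStmt) (btl : BtlStmt) (mst : MstStmt) (cr0 : Cr0Stmt) :
    CbaStmt := by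
  intro n β h
  obtain ⟨-, -, -, -, -, a6⟩ := arb true n β h.lr
  have hJ2 := a6 h.iso
  obtain ⟨b1, b2, b3⟩ := btl true n β h.iso h.cl h.lr
  have T := tyc true n β h.iso h.cl h.lr
  have h0 : BX β 0 [2] [2] := bx_of_r0 (cr0 true n β h)
  have h2222 : BX β 1 [2, 2] [2, 2] := by
    refine b2 0 1 0 1 [2] [2] [2, 2] [2, 2] [1] ?_ ?_ ?_ ?_ ?_ ?_ ?_ ?_ ?_ h0 <;> decide +kernel
  have h2202 : BX β 1 [2, 2] [0, 2] := by
    refine b2 0 1 0 1 [2] [2] [2, 2] [0, 2] [1] ?_ ?_ ?_ ?_ ?_ ?_ ?_ ?_ ?_ h0 <;> decide +kernel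
  have hT : ∀ y : List ℕ, y ∈ vls true 1 → HB true n β (Bit.D 0) → BX β 1 [2, 2] y →
      BX β 1 [2, 1] y := fun y hy hd hxy =>
    (T 1 1 1 [2, 1] [2, 2] y (by decide) (by decide) (by decide +kernel) hy
      (tab_ofA (by decide +kernel) hd) (by decide +kernel)).2 hxy
  have c1 : BX β 1 [2, 1] [2, 1] := by
    by_contra hn
    refine mst true n β h 1 1 _ _ _ _ _ _ _ _ _ _ _ H65.cB1 ?_ ?_ ?_
    · intro μ hμ
      exact absurd hμ List.not_mem_nil
    · intro μ hμ
      simp only [List.mem_cons, List.not_mem_nil, or_false] at hμ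
      rcases hμ with rfl | rfl
      · exact hJ2
      · intro hd
        exact hn (hT [2, 1] (by decide +kernel) hd
          (b3 1 1 _ _ (hT [2, 2] (by decide +kernel) hd h2222)))
    · intro q hq
      simp only [List.mem_cons, List.not_mem_nil, or_false] at hq
      subst hq
      exact hn
  have c2 : BX β 1 [2, 1] [0, 2] := by
    by_contra hn
    refine mst true n β h 1 1 _ _ _ _ _ _ _ _ _ _ _ H65.cB2 ?_ ?_ ?_
    · intro μ hμ
      exact absurd hμ List.not_mem_nil
    · intro μ hμ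
      simp only [List.mem_cons, List.not_mem_nil, or_false] at hμ
      rcases hμ with rfl | rfl | rfl
      · exact hJ2
      · intro hd
        exact hn (hT [0, 2] (by decide +kernel) hd h2202)
      · intro he
        have h1 : BX β 1 [2, 2] [2, 1] := by
          refine b2 1 1 1 1 [2, 1] [2, 1] [2, 2] [2, 1] [0, 1] ?_ ?_ ?_ ?_ ?_ ?_ ?_ ?_ ?_ c1 <;>
            decide +kernel
        exact hn (b3 1 1 _ _ ((T 1 1 0 [0, 2] [2, 2] [2, 1] (by decide) (by decide)
          (by decide +kernel) (by decide +kernel) (tab_ofA (by decide +kernel) he)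
          (by decide +kernel)).2 h1))
    · intro q hq
      simp only [List.mem_cons, List.not_mem_nil, or_false] at hq
      subst hq
      exact hn
  refine ⟨c1, c2, ?_⟩
  by_contra hn
  refine mst true n β h 2 2 _ _ _ _ _ _ _ _ _ _ _ H65.cB3 ?_ ?_ ?_
  · intro μ hμ
    exact absurd hμ List.not_mem_nil
  · intro μ hμ
    simp only [List.mem_cons, List.not_mem_nil, or_false] at hμ
    rcases hμ with rfl | rfl | rfl
    · exact hJ2
    · intro hd
      have h1 : BX β 2 [2, 0, 1] [0, 2, 2] := by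
        refine b2 1 2 1 2 [2, 1] [0, 2] [2, 0, 1] [0, 2, 2] [0, 2] ?_ ?_ ?_ ?_ ?_ ?_ ?_ ?_ ?_
          c2 <;> decide +kernel
      exact hn (b3 2 2 _ _ ((T 2 2 2 [0, 2, 1] [0, 2, 2] [2, 0, 1] (by decide) (by decide)
          (by decide +kernel) (by decide +kernel) (tab_ofA (by decide +kernel) hd)
          (by decide +kernel)).2 (b3 2 2 _ _ h1)))
    · intro he
      have h1 : BX β 2 [2, 0, 1] [2, 2, 1] := by
        refine b2 1 2 1 2 [2, 1] [2, 1] [2, 0, 1] [2, 2, 1] [0, 2] ?_ ?_ ?_ ?_ ?_ ?_ ?_ ?_ ?_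
          c1 <;> decide +kernel
      exact hn (b3 2 2 _ _ ((T 2 2 0 [0, 2, 1] [2, 2, 1] [2, 0, 1] (by decide) (by decide)
          (by decide +kernel) (by decide +kernel) (tab_ofA (by decide +kernel) he)
          (by decide +kernel)).2 (b3 2 2 _ _ h1)))
  · intro q hq
    simp only [List.mem_cons, List.not_mem_nil, or_false] at hq
    subst hq
    exact hn

end Pool.Agent.MWC.H81
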