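import Pool.Agent.MWC.StmtsB
import Pool.Agent.Helper65_MWC.Checks

/-!
# Row CBC of block MWC (MP_23468a_al): three clauses above the base (a')
-/

set_option autoImplicit false

namespace Pool.Agent.MWC.H81

open Pool.Agent.Helper14_MV Pool.Agent.Helper2_MV Pool.Agent.MVO Pool.Agent.MWL Pool.Agent.MWA
open Pool.Agent.MWC

theorem tab_of {n : ℕ} {β : FIC} {r : Bool} {k j : ℕ} {x : List ℕ} {κ : Bit}
    (ht : tab r k x j = [κ]) (h : HB r n β κ) : ∀ μ ∈ tab r k x j, HB r n β μ := by
  intro μ hμ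
  rw [ht, List.mem_singleton] at hμ
  rw [hμ]
  exact h

/-- **CBC** -/
theorem cbc (arb : ArbStmt) (tyc : TycStmt) (btl : BtlStmt) (mst : MstStmt) : CbcStmt := by
  intro n β h
  obtain ⟨-, -, -, -, -, a6⟩ := arb true n β h.lr
  have hJ2 := a6 h.iso
  obtain ⟨b1, b2, b3⟩ := btl true n β h.iso h.cl h.lr
  have T := tyc true n β h.iso h.cl h.lr
  have hD : HB true n β (Bit.D 0) → (BX β 1 [2, 1] [1, 1] ↔ BX β 1 [2, 2] [1, 1]) := fun hd =>
    T 1 1 1 [2, 1] [2, 2] [1, 1] (by decide) (by decide) (by decide +kernel) (by decide +kernel)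
      (tab_of (by decide +kernel) hd) (by decide +kernel)
  have hG : HB true n β Bit.G → BX β 1 [2, 2] [1, 1] := fun hg =>
    (T 1 1 1 [2, 0] [2, 2] [1, 1] (by decide) (by decide) (by decide +kernel) (by decide +kernel)
      (tab_of (by decide +kernel) hg) (by decide +kernel)).1
      (b1 1 1 [2, 0] [1, 1] (by decide) (by decide +kernel) (by decide +kernel) (by decide +kernel))
  refine ⟨fun h22 => ?_, fun hd => ?_, fun h21 => ?_⟩
  · by_contra hc
    rw [not_or] at hc
    obtain ⟨hJ3, hn⟩ := hc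
    refine mst true n β h 2 2 _ _ _ _ _ _ _ _ _ _ _ H65.cB8 ?_ ?_ ?_
    · intro μ hμ
      exact absurd hμ List.not_mem_nil
    · intro μ hμ
      simp only [List.mem_cons, List.not_mem_nil, or_false] at hμ
      rcases hμ with rfl | rfl | rfl
      · exact hJ3
      · exact hJ2
      · exact fun hd => hn (b3 1 1 _ _ ((hD hd).2 (b3 1 1 _ _ h22)))
    · intro q hq
      simp only [List.mem_cons, List.not_mem_nil, or_false] at hq
      subst hq
      exact hn
  · by_contra hc
    rw [not_or] at hc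
    obtain ⟨hJ3, hn⟩ := hc
    have hn22 : ¬ BX β 1 [2, 2] [1, 1] := fun h22 => hn (b3 1 1 _ _ ((hD hd).2 h22))
    refine mst true n β h 2 2 _ _ _ _ _ _ _ _ _ _ _ H65.cB9 ?_ ?_ ?_
    · intro μ hμ
      exact absurd hμ List.not_mem_nil
    · intro μ hμ
      simp only [List.mem_cons, List.not_mem_nil, or_false] at hμ
      rcases hμ with rfl | rfl | rfl
      · exact hJ3
      · exact hJ2
      · exact fun hg => hn22 (hG hg)
    · intro q hq
      simp only [List.mem_cons, List.not_mem_nil, or_false] at hq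
      rcases hq with rfl | rfl | rfl
      · exact hn
      · exact fun h22 => hn22 (b3 1 1 _ _ h22)
      · intro h02
        refine hn22 (b3 1 1 _ _ (b2 1 1 1 1 [1, 1] [0, 2] [1, 1] [2, 2] [0, 1] ?_ ?_ ?_ ?_ ?_ ?_ ?_
          ?_ ?_ h02)) <;> decide +kernel
  · by_contra hc
    rw [not_or] at hc
    obtain ⟨hJ3, hn⟩ := hc
    refine mst true n β h 3 3 _ _ _ _ _ _ _ _ _ _ _ H65.cB10 ?_ ?_ ?_
    · intro μ hμ
      exact absurd hμ List.not_mem_nil
    · intro μ hμ
      simp only [List.mem_cons, List.not_mem_nil, or_false] at hμ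
      rcases hμ with rfl | rfl | rfl | rfl
      · exact hJ3
      · exact hJ2
      · intro hg
        have h1 : BX β 2 [0, 2, 2] [1, 0, 1] :=
          (T 2 2 2 [0, 2, 0] [0, 2, 2] [1, 0, 1] (by decide) (by decide) (by decide +kernel)
            (by decide +kernel) (tab_of (by decide +kernel) hg) (by decide +kernel)).1
            (b1 2 2 [0, 2, 0] [1, 0, 1] (by decide) (by decide +kernel) (by decide +kernel)
              (by decide +kernel))
        refine hn (b3 1 1 _ _ (b2 2 1 2 1 [0, 2, 2] [1, 0, 1] [0, 2] [1, 1] [0, 1, 1] ?_ ?_ ?_ ?_ ?_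
          ?_ ?_ ?_ ?_ h1)) <;> decide +kernel
      · intro he
        have h1 : BX β 1 [1, 1] [2, 2] := by
          refine b2 1 1 1 1 [1, 1] [2, 1] [1, 1] [2, 2] [0, 1] ?_ ?_ ?_ ?_ ?_ ?_ ?_ ?_ ?_ h21 <;>
            decide +kernel
        exact hn (b3 1 1 _ _ ((T 1 1 0 [0, 2] [2, 2] [1, 1] (by decide) (by decide)
          (by decide +kernel) (by decide +kernel) (tab_of (by decide +kernel) he)
          (by decide +kernel)).2 (b3 1 1 _ _ h1)))
    · intro q hq
      simp only [List.mem_cons, List.not_mem_nil, or_false] at hq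
      subst hq
      exact hn

end Pool.Agent.MWC.H81
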